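import Pool.Agent.H.MP_be5e04_al.Main

namespace Pool.Agent.Results.MP_be5e04_al.Heisenberg
open Pool.Agent.H.MP_be5e04_al

/-- The discrete Heisenberg group: upper unitriangular 3 x 3 integer matrices. -/
def Heis : Subgroup (Matrix.SpecialLinearGroup (Fin 3) ℤ) :=
  Subgroup.closure {A | ∀ i j : Fin 3, j ≤ i → A.1 i j = if i = j then 1 else 0}

/-- The product on the space of ultrafilters: `p q` is the limit of `g q` as `g` tends to `p`. -/
def umul {G : Type} [Group G] (p q : Ultrafilter G) : Ultrafilter G :=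
  p.bind fun g => q.map fun h => g * h

/-- Closed right ideals of the compact right topological semigroup of ultrafilters on `G`. -/
def IsClosedRightIdeal {G : Type} [Group G] (R : Set (Ultrafilter G)) : Prop :=
  R.Nonempty ∧ IsClosed R ∧ ∀ p ∈ R, ∀ q, umul p q ∈ R

theorem mem_umul {G : Type} [Group G] (p q : Ultrafilter G) (A : Set G) :
    A ∈ umul p q ↔ {g | {h | g * h ∈ A} ∈ q} ∈ p := by
  rw [← Ultrafilter.mem_coe, ← Ultrafilter.mem_coe]
  exact Filter.mem_bind'

theorem exists_minimal {G : Type} [Group G] (R : Set (Ultrafilter G)) (hR : IsClosedRightIdeal R) :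
    ∃ R' ⊆ R, Minimal IsClosedRightIdeal R' := by
  refine zorn_superset_nonempty {R | IsClosedRightIdeal R} (fun c hc hch hne => ?_) R hR
  refine ⟨⋂₀ c, ⟨?_, isClosed_sInter fun s hs => (hc hs).2.1, fun p hp q s hs =>
    (hc hs).2.2 p (hp s hs) q⟩, fun s hs => Set.sInter_subset_of_mem hs⟩
  have := hne.to_subtype
  exact IsCompact.nonempty_sInter_of_directed_nonempty_isCompact_isClosed
    (fun x hx y hy => by
      rcases hch.total hx hy with h | h
      · exact ⟨x, hx, subset_rfl, h⟩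
      · exact ⟨y, hy, h, subset_rfl⟩) (fun s hs => (hc hs).1) (fun s hs => (hc hs).2.1.isCompact)
    (fun s hs => (hc hs).2.1)

theorem ideal_of_colouring {G : Type} [Group G] (ξ : G → Bool) (ε : Bool)
    (hξ : ∀ m : ℕ, ∃ F : Finset G, ∀ t : Fin m → G, ∃ f ∈ F, ∀ i, ξ (f * t i) = ε) :
    IsClosedRightIdeal {u : Ultrafilter G | ∀ q : Ultrafilter G,
      {g | {h | ξ (g * h) = ε} ∈ q} ∈ u} := by
  classical
  refine ⟨?_, ?_, fun u hu w q => ?_⟩
  · obtain ⟨u, hu⟩ := Ultrafilter.exists_ultrafilter_of_finite_inter_nonempty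
      (Set.range fun q : Ultrafilter G => {g | {h | ξ (g * h) = ε} ∈ q}) (fun T hT => by
        have h1 : ∀ s : T, ∃ q : Ultrafilter G, {g | {h | ξ (g * h) = ε} ∈ q} = s.1 :=
          fun s => hT s.2
        choose q hq using h1
        obtain ⟨F, hF⟩ := hξ T.card
        have h2 : ∀ s : T, ∃ t, ∀ f ∈ F, f ∉ s.1 → ξ (f * t) ≠ ε := by
          intro s
          have : ∀ᶠ t in (q s : Filter G), ∀ f ∈ F, f ∉ s.1 → ξ (f * t) ≠ ε := by
            rw [Filter.eventually_all_finset]
            intro f _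
            by_cases hf : f ∈ s.1
            · exact Filter.Eventually.of_forall fun _ h => absurd hf h
            · rw [← hq s] at hf
              have h3 := Ultrafilter.compl_mem_iff_notMem.2 hf
              exact Filter.mem_of_superset h3 fun t ht _ => ht
          exact this.exists
        choose t ht using h2
        obtain ⟨f, hf, h⟩ := hF fun i => t (T.equivFin.symm i)
        refine ⟨f, fun s hs => ?_⟩
        by_contra h'
        have := h (T.equivFin ⟨s, hs⟩)
        rw [Equiv.symm_apply_apply] at this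
        exact ht ⟨s, hs⟩ f hf h' this)
    exact ⟨u, fun q => hu ⟨q, rfl⟩⟩
  · rw [Set.ofPred_forall]
    exact isClosed_iInter fun q => ultrafilter_isClosed_basic _
  · have := hu (umul w q)
    rw [mem_umul]
    simpa only [mem_umul, Set.mem_ofPred_eq, mul_assoc] using this

theorem two_ideals {G : Type} [Group G] (ξ : G → Bool)
    (hξ : ∀ m : ℕ, ∃ F : Finset G, ∀ (t : Fin m → G) (ε : Bool),
      ∃ f ∈ F, ∀ i, ξ (f * t i) = ε) :
    ∃ R₁ R₂ : Set (Ultrafilter G), Minimal IsClosedRightIdeal R₁ ∧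
      Minimal IsClosedRightIdeal R₂ ∧ R₁ ≠ R₂ := by
  obtain ⟨R₁, h1, h1'⟩ := exists_minimal _ (ideal_of_colouring ξ true fun m =>
    (hξ m).imp fun F hF t => hF t true)
  obtain ⟨R₂, h2, h2'⟩ := exists_minimal _ (ideal_of_colouring ξ false fun m =>
    (hξ m).imp fun F hF t => hF t false)
  refine ⟨R₁, R₂, h1', h2', fun h => ?_⟩
  obtain ⟨u, hu⟩ := h1'.prop.1
  obtain ⟨g, hg1, hg2⟩ := Ultrafilter.nonempty_of_mem
    (Filter.inter_mem (h1 hu (pure 1)) (h2 (h ▸ hu) (pure 1)))
  simp only [Set.mem_ofPred_eq, Ultrafilter.mem_pure] at hg1 hg2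
  rw [hg1] at hg2
  exact Bool.noConfusion hg2

def phi : H →* Matrix.SpecialLinearGroup (Fin 3) ℤ where
  toFun x := ⟨!![1, x.a, x.c; 0, 1, x.b; 0, 0, 1], by simp [Matrix.det_fin_three]⟩
  map_one' := by
    ext i j; fin_cases i <;> fin_cases j <;> simp
  map_mul' x y := by
    apply Subtype.ext
    show (!![1, (x * y).a, (x * y).c; 0, 1, (x * y).b; 0, 0, 1] : Matrix (Fin 3) (Fin 3) ℤ) =
      !![1, x.a, x.c; 0, 1, x.b; 0, 0, 1] * !![1, y.a, y.c; 0, 1, y.b; 0, 0, 1]
    ext i j; fin_cases i <;> fin_cases j <;>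
      simp [Matrix.mul_apply, Fin.sum_univ_three] <;> ring

theorem phi_val (x : H) : (phi x).1 = !![1, x.a, x.c; 0, 1, x.b; 0, 0, 1] := rfl

theorem phi_inj : Function.Injective phi := by
  intro x y h
  have h' : ∀ i j, (phi x).1 i j = (phi y).1 i j := fun i j => by rw [h]
  ext
  · simpa [phi_val] using h' 0 1
  · simpa [phi_val] using h' 1 2
  · simpa [phi_val] using h' 0 2

theorem phi_range : phi.range = Heis := by
  rw [Heis, ← Subgroup.closure_eq phi.range]
  congr 1
  ext A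
  constructor
  · rintro ⟨x, rfl⟩ i j hij
    fin_cases i <;> fin_cases j <;> simp [phi_val] at hij ⊢
  · intro hA
    refine ⟨⟨A.1 0 1, A.1 1 2, A.1 0 2⟩, ?_⟩
    have h00 := hA 0 0 le_rfl
    have h11 := hA 1 1 le_rfl
    have h22 := hA 2 2 le_rfl
    have h10 := hA 1 0 (by decide)
    have h20 := hA 2 0 (by decide)
    have h21 := hA 2 1 (by decide)
    ext i j
    fin_cases i <;> fin_cases j <;> simp_all [phi_val]

noncomputable def iso : H ≃* Heis :=
  (MonoidHom.ofInjective phi_inj).trans (MulEquiv.subgroupCongr phi_range)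

def ab : H →* Multiplicative (ℤ × ℤ) where
  toFun x := Multiplicative.ofAdd (x.a, x.b)
  map_one' := rfl
  map_mul' _ _ := rfl

theorem nilp : Group.IsNilpotent H := by
  apply Subgroup.isNilpotent_of_ker_le_center ab
  intro x hx
  have h : (x.a, x.b) = (0, 0) := hx
  rw [Prod.mk.injEq] at h
  rw [Subgroup.mem_center_iff]
  intro g
  ext <;> simp [h.1, h.2]
  ring

theorem pow_x (n : ℕ) : (⟨1, 0, 0⟩ : H) ^ n = ⟨n, 0, 0⟩ := by
  induction n with
  | zero => rfl
  | succ n ih => rw [pow_succ, ih]; ext <;> simp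

theorem pow_y (n : ℕ) : (⟨0, 1, 0⟩ : H) ^ n = ⟨0, n, 0⟩ := by
  induction n with
  | zero => rfl
  | succ n ih => rw [pow_succ, ih]; ext <;> simp

theorem result (G : Type) [Group G] (e : G ≃* Heis) : Countable G ∧ Group.IsNilpotent G ∧
    (¬ ∃ N : Subgroup G, N.FiniteIndex ∧ ∀ x ∈ N, ∀ y ∈ N, x * y = y * x) ∧
    ∃ R₁ R₂ : Set (Ultrafilter G), Minimal IsClosedRightIdeal R₁ ∧
      Minimal IsClosedRightIdeal R₂ ∧ R₁ ≠ R₂ := by
  classical
  let iso' : H ≃* G := iso.trans e.symm
  refine ⟨?_, ?_, ?_, ?_⟩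
  · have : Countable H := Function.Injective.countable
      (f := fun x : H => (x.a, x.b, x.c)) fun x y h => by
        simp only [Prod.mk.injEq] at h
        exact H.ext h.1 h.2.1 h.2.2
    exact iso'.symm.injective.countable
  · have := nilp
    exact Group.nilpotent_of_mulEquiv iso'
  · rintro ⟨N, hN, h⟩
    obtain ⟨n, hn, -, h1⟩ := N.exists_pow_mem_of_index_ne_zero hN.1 (iso' ⟨1, 0, 0⟩)
    obtain ⟨k, hk, -, h2⟩ := N.exists_pow_mem_of_index_ne_zero hN.1 (iso' ⟨0, 1, 0⟩)
    have h3 := h _ h1 _ h2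
    rw [← map_pow, ← map_pow, ← map_mul, ← map_mul, pow_x, pow_y] at h3
    have h4 := congrArg H.c (iso'.injective h3)
    simp at h4
    omega
  · obtain ⟨ξ, hξ⟩ := exists_colouring
    refine two_ideals (fun g => ξ (iso'.symm g)) fun m => ?_
    obtain ⟨F, hF⟩ := hξ m
    refine ⟨F.image iso', fun t ε => ?_⟩
    obtain ⟨f, hf, h⟩ := hF (fun i => iso'.symm (t i)) ε
    exact ⟨iso' f, Finset.mem_image_of_mem _ hf, fun i => by simpa using h i⟩

end Pool.Agent.Results.MP_be5e04_al.Heisenberg
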